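import Pool.Agent.OddZetaG.OneNeG
import Pool.Agent.OddZetaV.F7.Data
import Pool.Agent.OddZetaV.F9.Data

/-!
`rho0 (F.D j) 1 ≠ 0` for families of data, all `j` at once, from decidable conditions; the families
`F7` and `F9` (prime `37`, simple pole `l = 61`).
Seat: helper96 (after helper55).
-/

set_option autoImplicit false

open Finset

namespace Pool.Agent.OddZetaG

open Pool.Agent.OddZetaG.Tab

namespace Fam

variable (F : Fam)

/-- number of the blocks of a list containing `l` (at `n = 1`) -/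
def oB (l : ℕ) (L : List ℕ) : ℤ := (L.map (fun h => if l ∈ blk (F.D 0) 1 h then (1 : ℤ) else 0)).sum

/-- the summand of `V` at `n = 1` -/
def vt (p l h : ℕ) : ℤ := ((Nl (F.D 0) 1 h / p : ℕ) : ℤ) - cnt (F.D 0) 1 l p h

/-- the summand of `E0` at `n = 1` -/
def et (p h : ℕ) : ℤ := ((Nl (F.D 0) 1 h / p : ℕ) : ℤ)

def ord0 (l : ℕ) : ℤ := F.oB l F.P0 - F.oB l F.M0
def ord1 (l : ℕ) : ℤ := F.oB l F.P1 - F.oB l F.M1
def V0 (p l : ℕ) : ℤ := (F.P0.map (F.vt p l)).sum - (F.M0.map (F.vt p l)).sum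
def V1 (p l : ℕ) : ℤ := (F.P1.map (F.vt p l)).sum - (F.M1.map (F.vt p l)).sum
def E00 (p : ℕ) : ℤ := (F.P0.map (F.et p)).sum - (F.M0.map (F.et p)).sum
def E01 (p : ℕ) : ℤ := (F.P1.map (F.et p)).sum - (F.M1.map (F.et p)).sum

variable {F}

theorem ord_Dj (hF : F.OK) (j l : ℕ) : ord (F.D j) 1 l = F.ord0 l + j * F.ord1 l := by
  have h1 : ord (F.D j) 1 l = (∑ i ∈ (F.D j).P, if l ∈ blk (F.D 0) 1 ((F.D j).h i) then (1 : ℤ) else 0) -
      ∑ i ∈ (F.D j).M, if l ∈ blk (F.D 0) 1 ((F.D j).h i) then (1 : ℤ) else 0 := by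
    unfold ord
    rw [Finset.card_filter, Finset.card_filter]
    push_cast
    rfl
  rw [h1, sumPj hF j (fun h => if l ∈ blk (F.D 0) 1 h then (1 : ℤ) else 0),
    sumMj hF j (fun h => if l ∈ blk (F.D 0) 1 h then (1 : ℤ) else 0)]
  simp only [nsmul_eq_mul, ord0, ord1, oB]
  ring

theorem V_Dj (hF : F.OK) (j l p : ℕ) : V (F.D j) 1 l p = F.V0 p l + j * F.V1 p l := by
  have h1 : V (F.D j) 1 l p = (∑ i ∈ (F.D j).P, F.vt p l ((F.D j).h i)) -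
      ∑ i ∈ (F.D j).M, F.vt p l ((F.D j).h i) := rfl
  rw [h1, sumPj hF j (F.vt p l), sumMj hF j (F.vt p l)]
  simp only [nsmul_eq_mul, V0, V1]
  ring

theorem E0_Dj (hF : F.OK) (j p : ℕ) : E0 (F.D j) 1 p = F.E00 p + j * F.E01 p := by
  have h1 : E0 (F.D j) 1 p = (∑ i ∈ (F.D j).P, F.et p ((F.D j).h i)) -
      ∑ i ∈ (F.D j).M, F.et p ((F.D j).h i) := rfl
  rw [h1, sumPj hF j (F.et p), sumMj hF j (F.et p)]
  simp only [nsmul_eq_mul, E00, E01]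
  ring

/-- the decidable condition on a pole `l` -/
def CondL (F : Fam) (p l₀ l : ℕ) : Prop :=
  (l - F.s < p ∧ (∀ x ∈ F.P0 ++ F.P1, cnt (F.D 0) 1 l p x ≤ 0) ∧
      - F.E00 p ≤ F.k0 - F.V0 p l₀ ∧ - F.E01 p ≤ F.k1 - F.V1 p l₀) ∨
    (l - F.s < p ∧ F.ord0 l - F.V0 p l - 1 ≤ F.k0 - F.V0 p l₀ ∧
      F.ord1 l - F.V1 p l ≤ F.k1 - F.V1 p l₀) ∨
    (F.ord0 l - F.V0 p l + F.k0 ≤ F.k0 - F.V0 p l₀ ∧ F.ord1 l - F.V1 p l + F.k1 ≤ F.k1 - F.V1 p l₀)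

instance (F : Fam) (p l₀ l : ℕ) : Decidable (CondL F p l₀ l) := by unfold CondL; infer_instance

/-- nonvanishing for all members of a family -/
theorem rho0_one_ne (hF : F.OK) (p l₀ : ℕ) [Fact p.Prime] (hC : F.C < p ^ 2)
    (hl : l₀ ∈ Finset.Icc F.lo (F.C - F.lo)) (ho0 : F.ord0 l₀ = 1) (ho1 : F.ord1 l₀ = 0)
    (hlin : ¬ (p : ℤ) ∣ (F.C : ℤ) - 2 * l₀) (h1 : p ≤ l₀ - F.s) (h2 : l₀ - F.s < 2 * p)
    (hoth : ∀ l ∈ (Finset.Icc F.lo (F.C - F.lo)).erase l₀, CondL F p l₀ l) (j : ℕ) :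
    rho0 (F.D j) 1 ≠ 0 := by
  have hpol : poles (F.D j) 1 = Finset.Icc F.lo (F.C - F.lo) := by
    show Finset.Icc (F.lo * 1) ((F.C - F.lo) * 1) = _
    rw [Nat.mul_one, Nat.mul_one]
  have hk : ((F.D j).k : ℤ) = F.k0 + j * F.k1 := by
    show ((F.k0 + F.k1 * j : ℕ) : ℤ) = _
    push_cast
    ring
  have hj : (0 : ℤ) ≤ j := Int.natCast_nonneg j
  refine rho0_one_ne_of (p := p) (OKj hF j) hC l₀ (by rw [hpol]; exact hl) ?_ hlin h1 h2 ?_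
  · rw [ord_Dj hF, ho0, ho1]
    ring
  · intro l hl'
    rw [hpol] at hl'
    rw [V_Dj hF j l₀ p, hk]
    rcases hoth l hl' with ⟨a1, a2, a3, a4⟩ | ⟨a1, a2, a3⟩ | ⟨a2, a3⟩
    · left
      refine ⟨a1, fun i hi => a2 _ (h_mem_Pj hF hi), ?_⟩
      rw [E0_Dj hF]
      nlinarith [mul_le_mul_of_nonneg_left a4 hj]
    · right; left
      refine ⟨a1, ?_⟩
      rw [ord_Dj hF, V_Dj hF j l p]
      nlinarith [mul_le_mul_of_nonneg_left a3 hj]
    · right; right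
      rw [ord_Dj hF, V_Dj hF j l p]
      nlinarith [mul_le_mul_of_nonneg_left a3 hj]

end Fam

end Pool.Agent.OddZetaG

namespace Pool.Agent.OddZetaV

open Pool.Agent.OddZetaG

theorem rho0_one_ne_F7 (j : ℕ) : rho0 (F7.F.D j) 1 ≠ 0 := by
  have : Fact (Nat.Prime 37) := ⟨by norm_num⟩
  refine Fam.rho0_one_ne F7.F_OK 37 61 ?_ ?_ ?_ ?_ ?_ ?_ ?_ ?_ j
  · decide +kernel
  · decide +kernel
  · decide +kernel
  · decide +kernel
  · decide +kernel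
  · decide +kernel
  · decide +kernel
  · decide +kernel

theorem rho0_one_ne_F9 (j : ℕ) : rho0 (F9.F.D j) 1 ≠ 0 := by
  have : Fact (Nat.Prime 37) := ⟨by norm_num⟩
  refine Fam.rho0_one_ne F9.F_OK 37 61 ?_ ?_ ?_ ?_ ?_ ?_ ?_ ?_ j
  · decide +kernel
  · decide +kernel
  · decide +kernel
  · decide +kernel
  · decide +kernel
  · decide +kernel
  · decide +kernel
  · decide +kernel

end Pool.Agent.OddZetaV
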