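import Pool.Agent.OddZetaG.RealTail
import Pool.Agent.OddZetaG.RealSize
import Pool.Agent.OddZetaG.RealSum
import Pool.Agent.OddZetaV.F7.Data
import Pool.Agent.OddZetaV.F9.Data

/-!
The size of the linear forms for the families `F7` and `F9`.  Seat: helper57.
-/

open Finset

namespace Pool.Agent.OddZetaV

open Pool.Agent.OddZetaG

theorem c7_0 : CertOK F7.F.C 11 1 F7.F.P0 F7.F.M0 := by
  constructor <;> decide

theorem c7_1 : CertOK F7.F.C 11 1 F7.F.P1 F7.F.M1 := by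
  constructor <;> decide

theorem c9_0 : CertOK F9.F.C 11 1 F9.F.P0 F9.F.M0 := by
  constructor <;> decide

theorem c9_1 : CertOK F9.F.C 11 1 F9.F.P1 F9.F.M1 := by
  constructor <;> decide

theorem h7_0 : chainL F7.F.C 11 1 F7.F.P0 F7.F.M0 1042 0
    [(1, 1), (3, 2), (5, 4), (7, 6), (9, 8), (11, 10), (28, 15), (188, 55), (588, 388)] 350 = true := by
  decide +kernel

theorem h7_1 : chainL F7.F.C 11 1 F7.F.P1 F7.F.M1 663 0
    [(4, 2), (6, 5), (10, 8), (40, 15), (440, 113)] 350 = true := by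
  decide +kernel

theorem h9_0 : chainL F9.F.C 11 1 F9.F.P0 F9.F.M0 1350 0
    [(1, 1), (2, 2), (3, 3), (5, 4), (6, 6), (7, 7), (9, 8), (11, 10), (42, 17), (425, 109)] 350 = true := by
  decide +kernel

theorem h9_1 : chainL F9.F.C 11 1 F9.F.P1 F9.F.M1 663 0
    [(4, 2), (6, 5), (10, 8), (40, 15), (440, 113)] 350 = true := by
  decide +kernel

theorem FR7_le (j : ℕ) (τ : ℝ) (hτ : -((11 : ℕ) : ℝ) ≤ τ) :
    FR (F7.F.D j) τ ≤ -(1041 + j * 661) - 1 / 10 * Real.log (τ + (11 : ℕ) + 1) := by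
  have := FR_fam_le F7.F_OK (T := 300) (by decide) (by decide) c7_0 c7_1 h7_0 h7_1 (by decide)
    (by decide) (by decide) (by decide) j τ hτ
  have hj : (0 : ℝ) ≤ j := Nat.cast_nonneg _
  have e1 : ((1042 : ℕ) : ℝ) / ((1 : ℕ) : ℝ) = 1042 := by norm_num
  have e2 : ((663 : ℕ) : ℝ) / ((1 : ℕ) : ℝ) = 663 := by norm_num
  rw [e1, e2] at this
  nlinarith

theorem FR9_le (j : ℕ) (τ : ℝ) (hτ : -((11 : ℕ) : ℝ) ≤ τ) :
    FR (F9.F.D j) τ ≤ -(1349 + j * 661) - 1 / 10 * Real.log (τ + (11 : ℕ) + 1) := by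
  have := FR_fam_le F9.F_OK (T := 300) (by decide) (by decide) c9_0 c9_1 h9_0 h9_1 (by decide)
    (by decide) (by decide) (by decide) j τ hτ
  have hj : (0 : ℝ) ≤ j := Nat.cast_nonneg _
  have e1 : ((1350 : ℕ) : ℝ) / ((1 : ℕ) : ℝ) = 1350 := by norm_num
  have e2 : ((663 : ℕ) : ℝ) / ((1 : ℕ) : ℝ) = 663 := by norm_num
  rw [e1, e2] at this
  nlinarith

theorem M7_le (j : ℕ) : ∀ i ∈ (F7.F.D j).M, (F7.F.D j).h i ≤ 11 := by
  intro i hi
  have h1 := Fam.h_mem_Mj F7.F_OK hi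
  have h2 : ∀ h ∈ F7.F.M0 ++ F7.F.M1, h ≤ 11 := by decide
  exact h2 _ h1

theorem M9_le (j : ℕ) : ∀ i ∈ (F9.F.D j).M, (F9.F.D j).h i ≤ 11 := by
  intro i hi
  have h1 := Fam.h_mem_Mj F9.F_OK hi
  have h2 : ∀ h ∈ F9.F.M0 ++ F9.F.M1, h ≤ 11 := by decide
  exact h2 _ h1

theorem S7_le (j : ℕ) : ∃ N : ℕ, ∀ n ≥ N,
    |S (F7.F.D j) n| ≤ Real.exp (-(1040 + 1 / 2 + j * 661 : ℝ) * n) := by
  have hD : (F7.F.D j).OK := Fam.OKj F7.F_OK j
  have hs : 11 < (F7.F.D j).s := by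
    show 11 < F7.F.s
    decide
  refine S_bound_real _ hD 11 (M7_le j) hs (al := 1041 + j * 661) (δ := 1 / 10) (by norm_num)
    (by linarith) (R_le_real _ hD 11 (M7_le j) hs) ?_
  intro τ hτ
  exact FR7_le j τ hτ

theorem S9_le (j : ℕ) : ∃ N : ℕ, ∀ n ≥ N,
    |S (F9.F.D j) n| ≤ Real.exp (-(1348 + 1 / 2 + j * 661 : ℝ) * n) := by
  have hD : (F9.F.D j).OK := Fam.OKj F9.F_OK j
  have hs : 11 < (F9.F.D j).s := by
    show 11 < F9.F.s
    decide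
  refine S_bound_real _ hD 11 (M9_le j) hs (al := 1349 + j * 661) (δ := 1 / 10) (by norm_num)
    (by linarith) (R_le_real _ hD 11 (M9_le j) hs) ?_
  intro τ hτ
  exact FR9_le j τ hτ

end Pool.Agent.OddZetaV
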