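import Pool.Agent.OddZetaV.D94T.Table
import Pool.Agent.OddZetaV.D94T.Size
import Pool.Agent.OddZetaV.F7.Table
import Pool.Agent.OddZetaV.F9.Table
import Pool.Agent.OddZetaV.Real
import Pool.Agent.OddZetaV.OneNe
import Pool.Agent.OddZetaG.MainOf
import Pool.Agent.OddZeta.ZetaTail

/-!
# For every odd `s ≥ 5` one of `ζ(s + 2), ζ(s + 4), ..., ζ(5 s - 6)` is irrational

The proof uses very-well-poised rational functions with `s` zero blocks and pole blocks of different
lengths: the data `D94` for `s = 5` (size by a complex saddle point line), the family `F7` for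
`s = 7 + 4 j` and the family `F9` for `s = 9 + 4 j` (size by a termwise estimate on the real axis),
and the `(s - 1)`-st derivatives.

Seats: helper57 (tables, sizes, assembly), helper7 (method, data, main theorem), helper96 (sum on the
real axis, nonvanishing of the families), helper55 (size on the real axis, nonvanishing), helper30
(size tools), helper88 (contour, prime number theorem), helper91 (linear form), helper75 (p-adic
bounds), helper8 (nonvanishing tool, data `D94`).
-/

namespace Pool.Agent.OddZetaV.UniformIntervals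

open Pool.Agent.OddZetaG Pool.Agent.OddZetaV

/-- the lower bound parameter is attained, for a family -/
theorem s_mem {F : Fam} (hF : F.OK) (j : ℕ) (hs : F.s ∈ F.P0) :
    ∃ i ∈ (F.D j).P, (F.D j).h i = (F.D j).s := by
  have h1 : (F.D j).s ∈ (F.D j).P.val.map (F.D j).h := by
    rw [(Fam.lists hF j).P_eq]
    show F.s ∈ F.PL j
    unfold Fam.PL
    exact List.mem_append_left _ hs
  rw [Multiset.mem_map] at h1
  exact h1

/-- the case `s = 5` -/
theorem case5 : ∃ j ∈ Js D94, Irrational (tail j 0) := by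
  refine main_of D94_OK ⟨0, by decide, by decide⟩ (be := 8078 / 10) (al := 809) (by norm_num)
    D94T.S_bound D94T.table rho0_D94_ne

/-- the case `s = 7 + 4 r` -/
theorem case7 (r : ℕ) : ∃ j ∈ Js (F7.F.D r), Irrational (tail j 0) := by
  obtain ⟨N, hN⟩ := S7_le r
  refine main_of (Fam.OKj F7.F_OK r) (s_mem F7.F_OK r (by decide)) (be := 1040 + r * 661)
    (al := 1040 + 1 / 2 + r * 661) (by linarith) ⟨N, fun n hn _ => hN n hn⟩ (F7.table r)
    (rho0_one_ne_F7 r)

/-- the case `s = 9 + 4 r` -/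
theorem case9 (r : ℕ) : ∃ j ∈ Js (F9.F.D r), Irrational (tail j 0) := by
  obtain ⟨N, hN⟩ := S9_le r
  refine main_of (Fam.OKj F9.F_OK r) (s_mem F9.F_OK r (by decide)) (be := 1348 + r * 661)
    (al := 1348 + 1 / 2 + r * 661) (by linarith) ⟨N, fun n hn _ => hN n hn⟩ (F9.table r)
    (rho0_one_ne_F9 r)

/-- For every odd `s ≥ 5` at least one of `ζ(s + 2), ζ(s + 4), ..., ζ(5 s - 6)` is irrational. -/
theorem result (s : ℕ) (hs : Odd s) (h5 : 5 ≤ s) :
    ∃ j : ℕ, Odd j ∧ s + 2 ≤ j ∧ j ≤ 5 * s - 6 ∧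
      ∃ x : ℝ, riemannZeta (j : ℂ) = (x : ℂ) ∧ Irrational x := by
  obtain ⟨q, hq⟩ := hs
  rcases Nat.lt_or_ge s 7 with h7 | h7
  · have hs5 : s = 5 := by omega
    subst hs5
    obtain ⟨j, hj, hirr⟩ := case5
    unfold Js at hj
    rw [Finset.mem_filter, Finset.mem_Icc] at hj
    obtain ⟨⟨h1, h2⟩, ⟨p, hp⟩⟩ := hj
    change 4 + 3 ≤ j at h1
    change j ≤ 4 + 16 at h2
    refine ⟨j, ⟨p, hp⟩, by omega, by omega, tail j 0, ?_, hirr⟩
    exact Pool.Agent.OddZeta.riemannZeta_eq_tail j (by omega)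
  · obtain ⟨r, hr | hr⟩ : ∃ r, s = 7 + 4 * r ∨ s = 9 + 4 * r := by
      refine ⟨(s - 7) / 4, ?_⟩
      omega
    · obtain ⟨j, hj, hirr⟩ := case7 r
      unfold Js at hj
      rw [Finset.mem_filter, Finset.mem_Icc] at hj
      obtain ⟨⟨h1, h2⟩, ⟨p, hp⟩⟩ := hj
      change 6 + 4 * r + 3 ≤ j at h1
      change j ≤ 6 + 4 * r + (24 + 16 * r) at h2
      refine ⟨j, ⟨p, hp⟩, by omega, by omega, tail j 0, ?_, hirr⟩
      exact Pool.Agent.OddZeta.riemannZeta_eq_tail j (by omega)
    · obtain ⟨j, hj, hirr⟩ := case9 r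
      unfold Js at hj
      rw [Finset.mem_filter, Finset.mem_Icc] at hj
      obtain ⟨⟨h1, h2⟩, ⟨p, hp⟩⟩ := hj
      change 8 + 4 * r + 3 ≤ j at h1
      change j ≤ 8 + 4 * r + (32 + 16 * r) at h2
      refine ⟨j, ⟨p, hp⟩, by omega, by omega, tail j 0, ?_, hirr⟩
      exact Pool.Agent.OddZeta.riemannZeta_eq_tail j (by omega)

end Pool.Agent.OddZetaV.UniformIntervals
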